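import Pool.Agent.W650.HL.Stm

set_option autoImplicit false

namespace Pool.Agent.W193.HL

open Pool.W650.HL Finset

/-- SCALE -/
theorem scale : SCALE := by
  intro r V _ G a F s
  unfold Zf
  rw [Finset.mul_sum]
  refine Finset.sum_congr rfl fun σ _ => ?_
  split_ifs with h
  · rw [← Finset.card_univ, ← Finset.prod_const, ← Finset.prod_mul_distrib]
    exact Finset.prod_congr rfl fun v _ => by ring
  · simp

/-- HOM: the number of homomorphisms into a complete multipartite graph. -/
theorem hom : HOM := by
  classical
  intro r W _ p V _ G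
  have h1 : Nat.card {f : V → W // ∀ a b : V, G.Adj a b → p (f a) ≠ p (f b)} =
      (univ.filter (fun f : V → W => ∀ a b : V, G.Adj a b → p (f a) ≠ p (f b))).card := by
    rw [Nat.card_eq_fintype_card, Fintype.card_subtype]
  have h2 : (univ.filter (fun f : V → W => ∀ a b : V, G.Adj a b → p (f a) ≠ p (f b))).card =
      ∑ σ : V → Fin r, ((univ.filter (fun f : V → W => ∀ a b : V, G.Adj a b →
        p (f a) ≠ p (f b))).filter (fun f => (fun v => p (f v)) = σ)).card :=
    Finset.card_eq_sum_card_fiberwise (fun _ _ => by simp)
  have h3 : ∀ σ : V → Fin r, ((univ.filter (fun f : V → W => ∀ a b : V, G.Adj a b →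
        p (f a) ≠ p (f b))).filter (fun f => (fun v => p (f v)) = σ)).card =
      if (∀ u v, G.Adj u v → σ u ≠ σ v) then ∏ v, (univ.filter (fun w : W => p w = σ v)).card
        else 0 := by
    intro σ
    split_ifs with h
    · rw [← Fintype.card_piFinset]
      congr 1
      ext f
      simp only [Finset.mem_filter, Finset.mem_univ, true_and, Fintype.mem_piFinset]
      constructor
      · rintro ⟨_, h5⟩ v
        exact congrFun h5 v
      · intro h5
        refine ⟨?_, funext h5⟩
        intro a b hab
        rw [h5 a, h5 b]
        exact h a b hab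
    · rw [Finset.card_eq_zero, Finset.filter_eq_empty_iff]
      intro f hf h5
      apply h
      intro u v huv
      have h6 := (Finset.mem_filter.mp hf).2 u v huv
      rw [← h5]
      exact h6
  rw [h1, h2, Finset.sum_congr rfl (fun σ _ => h3 σ)]
  unfold Zf
  rw [Nat.cast_sum]
  refine Finset.sum_congr rfl fun σ _ => ?_
  have h7 : ∀ i : Fin r, Nat.card {w : W // p w = i} = (univ.filter (fun w : W => p w = i)).card :=
    fun i => by rw [Nat.card_eq_fintype_card, Fintype.card_subtype]
  split_ifs with h
  · rw [Nat.cast_prod]
    refine Finset.prod_congr rfl fun v _ => ?_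
    beta_reduce
    rw [h7, mul_one]
  · simp

end Pool.Agent.W193.HL
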